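import Pool.Agent.W792.WA.Stm

/-! Project WA: analytic dependence of the effective contraction. -/

set_option autoImplicit false

namespace Pool.Agent.W585.WA.Holu

open MeasureTheory Pool.Agent.W792.WA Pool.Agent.W792.LL

theorem nz {w s : ℂ} {Q : ℝ} (hw : ‖w‖ ≤ Q) (hs : ‖s‖ ≤ 1) : ‖w * s‖ ≤ Q ∧ 1 - Q ≤ ‖1 - w * s‖ := by
  have h1 : ‖w * s‖ ≤ Q := by
    rw [norm_mul]
    calc ‖w‖ * ‖s‖ ≤ Q * 1 := mul_le_mul hw hs (norm_nonneg _) ((norm_nonneg _).trans hw)
      _ = Q := mul_one Q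
  have h2 : ‖(1 : ℂ)‖ - ‖w * s‖ ≤ ‖1 - w * s‖ := norm_sub_norm_le _ _
  rw [norm_one] at h2
  exact ⟨h1, by linarith⟩

theorem nz0 {w s : ℂ} {Q : ℝ} (hQ : Q < 1) (hw : ‖w‖ ≤ Q) (hs : ‖s‖ ≤ 1) : 1 - w * s ≠ 0 := by
  intro h
  have := (nz hw hs).2
  rw [h, norm_zero] at this
  linarith

theorem ae_icc {ρ : Measure ℝ} {C : ℝ} (hρ : ρ (Set.Icc (-C) C)ᶜ = 0) :
    ∀ᵐ a ∂ρ, a ∈ Set.Icc (-C) C := by
  rw [ae_iff]
  exact hρ

theorem contB {X : Type} [TopologicalSpace X] [FirstCountableTopology X] (ρ : Measure ℝ)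
    [IsProbabilityMeasure ρ] (C Q : ℝ) (W : X → ℝ → ℂ) (S : X → ℂ)
    (hρ : ρ (Set.Icc (-C) C)ᶜ = 0) (hW : Continuous (Function.uncurry W))
    (hWQ : ∀ k, ∀ a ∈ Set.Icc (-C) C, ‖W k a‖ ≤ Q) (hQ1 : Q < 1)
    (hS : Continuous S) (hS1 : ∀ k, ‖S k‖ ≤ 1) : Continuous (fun k => Bs ρ (W k) (S k)) := by
  unfold Bs
  apply continuous_of_dominated (bound := fun _ => Q / (1 - Q))
  · intro k
    have h1 : Continuous (W k) := hW.comp (by fun_prop : Continuous fun a : ℝ => (k, a))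
    exact (h1.measurable.div (measurable_const.sub
      (h1.measurable.mul measurable_const))).aestronglyMeasurable
  · intro k
    filter_upwards [ae_icc hρ] with a ha
    rw [norm_div]
    have h1 := hWQ k a ha
    exact div_le_div₀ ((norm_nonneg _).trans h1) h1 (by linarith) (nz h1 (hS1 k)).2
  · exact integrable_const _
  · filter_upwards [ae_icc hρ] with a ha
    have h1 : Continuous (fun k => W k a) := hW.comp (by fun_prop : Continuous fun k : X => (k, a))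
    exact h1.div (continuous_const.sub (h1.mul hS)) (fun k => nz0 hQ1 (hWQ k a ha) (hS1 k))

theorem diffB (ρ : Measure ℝ) [IsProbabilityMeasure ρ] (C q r : ℝ) (w : ℝ → ℂ) (s : ℂ → ℂ)
    (hρ : ρ (Set.Icc (-C) C)ᶜ = 0) (hw : Continuous w)
    (hwq : ∀ a ∈ Set.Icc (-C) C, ‖w a‖ ≤ q) (hq0 : 0 ≤ q) (hr : 0 < r) (hrq : r * q < 1)
    (hs : DifferentiableOn ℂ s (Metric.ball 0 r)) (hs1 : ∀ t ∈ Metric.ball (0 : ℂ) r, ‖s t‖ ≤ 1) :
    DifferentiableOn ℂ (fun t => Bs ρ (fun a => t * w a) (s t)) (Metric.ball 0 r) := by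
  have hrq0 : 0 ≤ r * q := mul_nonneg hr.le hq0
  have hsm : Summable (fun n : ℕ => (r * q) ^ (n + 1)) :=
    (summable_nat_add_iff 1).mpr (summable_geometric_of_lt_one hrq0 hrq)
  have hM : ∀ n : ℕ, ‖∫ a, w a ^ (n + 1) ∂ρ‖ ≤ q ^ (n + 1) := by
    intro n
    have h1 : ∀ᵐ a ∂ρ, ‖w a ^ (n + 1)‖ ≤ q ^ (n + 1) := by
      filter_upwards [ae_icc hρ] with a ha
      rw [norm_pow]
      exact pow_le_pow_left₀ (norm_nonneg _) (hwq a ha) _
    have h2 := norm_integral_le_of_norm_le_const h1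
    simpa using h2
  have hle : ∀ (n : ℕ) (t : ℂ), t ∈ Metric.ball (0 : ℂ) r →
      ‖t ^ (n + 1) * s t ^ n * ∫ a, w a ^ (n + 1) ∂ρ‖ ≤ (r * q) ^ (n + 1) := by
    intro n t ht
    rw [Metric.mem_ball, dist_zero_right] at ht
    rw [norm_mul, norm_mul, norm_pow, norm_pow, mul_pow]
    have h1 : ‖t‖ ^ (n + 1) ≤ r ^ (n + 1) := pow_le_pow_left₀ (norm_nonneg _) ht.le _
    have h2 : ‖s t‖ ^ n ≤ 1 :=
      pow_le_one₀ (norm_nonneg _) (hs1 t (by rw [Metric.mem_ball, dist_zero_right]; exact ht))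
    have h3 : ‖t‖ ^ (n + 1) * ‖s t‖ ^ n ≤ r ^ (n + 1) * 1 :=
      mul_le_mul h1 h2 (by positivity) (by positivity)
    rw [mul_one] at h3
    exact mul_le_mul h3 (hM n) (norm_nonneg _) (by positivity)
  have hd := Complex.differentiableOn_tsum_of_summable_norm (u := fun n : ℕ => (r * q) ^ (n + 1))
    (F := fun (n : ℕ) (t : ℂ) => t ^ (n + 1) * s t ^ n * ∫ a, w a ^ (n + 1) ∂ρ)
    (U := Metric.ball (0 : ℂ) r) hsm
    (fun n => ((differentiableOn_id.pow (n + 1)).mul (hs.pow n)).mul (differentiableOn_const _))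
    Metric.isOpen_ball hle
  refine hd.congr ?_
  intro t ht
  have ht' := ht
  rw [Metric.mem_ball, dist_zero_right] at ht'
  have hb : ∀ (n : ℕ), ∀ᵐ a ∂ρ, ‖t ^ (n + 1) * s t ^ n * w a ^ (n + 1)‖ ≤ (r * q) ^ (n + 1) := by
    intro n
    filter_upwards [ae_icc hρ] with a ha
    rw [norm_mul, norm_mul, norm_pow, norm_pow, norm_pow, mul_pow]
    have h1 : ‖t‖ ^ (n + 1) ≤ r ^ (n + 1) := pow_le_pow_left₀ (norm_nonneg _) ht'.le _
    have h2 : ‖s t‖ ^ n ≤ 1 := pow_le_one₀ (norm_nonneg _) (hs1 t ht)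
    have h3 : ‖t‖ ^ (n + 1) * ‖s t‖ ^ n ≤ r ^ (n + 1) * 1 :=
      mul_le_mul h1 h2 (by positivity) (by positivity)
    rw [mul_one] at h3
    exact mul_le_mul h3 (pow_le_pow_left₀ (norm_nonneg _) (hwq a ha) _) (by positivity)
      (by positivity)
  have hlim : ∀ᵐ a ∂ρ, HasSum (fun n : ℕ => t ^ (n + 1) * s t ^ n * w a ^ (n + 1))
      (t * w a / (1 - t * w a * s t)) := by
    filter_upwards [ae_icc hρ] with a ha
    have h1 : ‖t * w a‖ ≤ r * q := by
      rw [norm_mul]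
      exact mul_le_mul ht'.le (hwq a ha) (norm_nonneg _) hr.le
    have h2 := (nz h1 (hs1 t ht)).1
    have h3 := (hasSum_geometric_of_norm_lt_one (ξ := t * w a * s t) (h2.trans_lt hrq)).mul_left
      (t * w a)
    rw [← div_eq_mul_inv] at h3
    refine h3.congr_fun ?_ |> id
    intro n
    ring
  have key := hasSum_integral_of_dominated_convergence (μ := ρ)
    (F := fun (n : ℕ) a => t ^ (n + 1) * s t ^ n * w a ^ (n + 1))
    (f := fun a => t * w a / (1 - t * w a * s t))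
    (fun n _ => (r * q) ^ (n + 1))
    (fun n => ((hw.pow (n + 1)).measurable.const_mul _).aestronglyMeasurable) hb
    (Filter.Eventually.of_forall fun _ => hsm) (integrable_const _) hlim
  show ∫ a, t * w a / (1 - t * w a * s t) ∂ρ = _
  rw [← key.tsum_eq]
  apply tsum_congr
  intro n
  exact integral_const_mul _ _

theorem main : S_SC1 → S_HOLP → S_HOLU := by
  intro hSC hHP d ρ _ C q r w s hρ hw hwq hq0 hr hrq hs hs1
  have hrq0 : 0 ≤ r * q := mul_nonneg hr.le hq0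
  have hsk : ∀ t ∈ Metric.ball (0 : ℂ) r, ∀ k, ‖s t k‖ ≤ 1 := fun t ht k =>
    ((s t).norm_coe_le_norm k).trans (hs1 t ht)
  have htw : ∀ t ∈ Metric.ball (0 : ℂ) r, ∀ k, ∀ a ∈ Set.Icc (-C) C, ‖t * w k a‖ ≤ r * q := by
    intro t ht k a ha
    rw [Metric.mem_ball, dist_zero_right] at ht
    rw [norm_mul]
    exact mul_le_mul ht.le (hwq k a ha) (norm_nonneg _) hr.le
  have hwk : ∀ k, Continuous (w k) := fun k => hw.comp (by fun_prop : Continuous fun a : ℝ => (k, a))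
  have hsc : ∀ t ∈ Metric.ball (0 : ℂ) r, ∀ k,
      1 + s t k * Bs ρ (fun a => t * w k a) (s t k) ≠ 0 ∧
      ‖Us ρ (fun a => t * w k a) (s t k)‖ ≤ r * q := by
    intro t ht k
    have h1 := hSC ρ (fun a => t * w k a) (r * q) (s t k) ((hwk k).measurable.const_mul t) hrq0
      hrq.le (by filter_upwards [ae_icc hρ] with a ha using htw t ht k a ha) (hsk t ht k)
      (lt_of_le_of_lt (mul_le_of_le_one_right hrq0 (hsk t ht k)) hrq)
    exact ⟨h1.2.1, h1.2.2.1⟩
  have hcont : ∀ t ∈ Metric.ball (0 : ℂ) r,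
      Continuous (fun k => Us ρ (fun a => t * w k a) (s t k)) := by
    intro t ht
    have h1 : Continuous (fun k => Bs ρ (fun a => t * w k a) (s t k)) := by
      apply contB ρ C (r * q) (fun k a => t * w k a) (fun k => s t k) hρ
      · exact continuous_const.mul hw
      · exact htw t ht
      · exact hrq
      · exact (s t).continuous
      · exact hsk t ht
    unfold Us
    exact h1.div (continuous_const.add ((s t).continuous.mul h1)) (fun k => (hsc t ht k).1)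
  have hval : ∀ t ∈ Metric.ball (0 : ℂ) r, ∀ k,
      UU ρ (fun k a => t * w k a) (s t) k = Us ρ (fun a => t * w k a) (s t k) := by
    intro t ht k
    unfold UU toC
    rw [dif_pos (hcont t ht)]
    rfl
  refine ⟨?_, hval⟩
  apply hHP (C(UnitAddTorus (Fin d), ℂ)) {l | ∃ k, ∀ f : C(UnitAddTorus (Fin d), ℂ), l f = f k}
    (Metric.ball 0 r) (fun t => UU ρ (fun k a => t * w k a) (s t)) (r * q) Metric.isOpen_ball
  · rintro l ⟨k, hl⟩
    apply ContinuousLinearMap.opNorm_le_bound _ zero_le_one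
    intro f
    rw [hl, one_mul]
    exact f.norm_coe_le_norm k
  · intro x c hc h
    rw [ContinuousMap.norm_le _ hc]
    intro k
    exact h (ContinuousMap.evalCLM ℂ k) ⟨k, fun f => rfl⟩
  · intro t ht
    rw [ContinuousMap.norm_le _ hrq0]
    intro k
    rw [hval t ht]
    exact (hsc t ht k).2
  · rintro l ⟨k, hl⟩
    have h1 : DifferentiableOn ℂ (fun t => s t k) (Metric.ball 0 r) := by
      have h2 := (ContinuousMap.evalCLM ℂ k :
        C(UnitAddTorus (Fin d), ℂ) →L[ℂ] ℂ).differentiable.comp_differentiableOn hs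
      exact h2
    have h3 := diffB ρ C q r (w k) (fun t => s t k) hρ (hwk k) (hwq k) hq0 hr hrq h1
      (fun t ht => hsk t ht k)
    have h4 : DifferentiableOn ℂ (fun t => Us ρ (fun a => t * w k a) (s t k))
        (Metric.ball 0 r) := by
      unfold Us
      exact h3.div ((differentiableOn_const _).add (h1.mul h3)) (fun t ht => (hsc t ht k).1)
    refine h4.congr ?_
    intro t ht
    show l (UU ρ (fun k a => t * w k a) (s t)) = _
    rw [hl, hval t ht]

end Pool.Agent.W585.WA.Holu
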